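import Pool.Agent.H82.FP.Targets2

/-!
# Board flp_modules, row FLP: four-linear restriction with polynomial dependence on the
transversality (iteration of the step `R^{1/2} → R`)
-/

set_option autoImplicit false

namespace Pool.Agent.H99.FP

open MeasureTheory Set
open Pool.Agent.H83.G
open Pool.Agent.H22.G4 (nv Ind)
open Pool.Agent.H82.FP

theorem flst_mono {D κ σ R B B' : ℝ} {c : Fin 4 → E 2} (hR : 0 ≤ R) (h : FLst D κ σ R B c)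
    (hB : B ≤ B') : FLst D κ σ R B' c := by
  intro H G z₀ Y hH hG hs hY hz hl
  refine (h H G z₀ Y hH hG hs hY hz hl).trans ?_
  apply mul_le_mul_of_nonneg_right hB
  apply Finset.prod_nonneg
  intro i _
  apply Real.rpow_nonneg
  have h1 : 0 ≤ ∫ ζ, ‖G i ζ‖ ^ 2 := integral_nonneg (fun ζ => by positivity)
  positivity

theorem sigma_bd {K : ℝ} (hK : 1 ≤ K) : 0 < 1 / (200 * K) ∧ 1 / (200 * K) ≤ 1 := by
  constructor
  · positivity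
  · rw [div_le_one (by positivity)]
    linarith

/-- the claim for `J` steps -/
def PJ (D ε : ℝ) (J : ℕ) : Prop := ∃ C E₁ : ℝ, 1 ≤ C ∧ 0 ≤ E₁ ∧
  ∀ (K R : ℝ) (c : Fin 4 → E 2), 1 ≤ K → 1 ≤ R → (∀ i, ‖c i‖ ≤ 7 / 5) → Ind K⁻¹ c →
  FLst D ((1 / 2) ^ J / 4) (1 / (200 * K)) R (C * K ^ E₁ * R ^ (ε + 4 * (1 / 2) ^ J)) c

theorem pj_zero (hFLB : T_FLB) {D ε : ℝ} (hD : 1 ≤ D) (hε : 0 < ε) : PJ D ε 0 := by
  obtain ⟨C, hC, h⟩ := hFLB D hD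
  refine ⟨C, 0, hC, le_rfl, ?_⟩
  intro K R c hK hR hc _
  obtain ⟨hs0, hs1⟩ := sigma_bd hK
  have h1 := h ((1 / 2) ^ 0 / 4) (1 / (200 * K)) R c (by norm_num) (by norm_num) hs0 hs1 hR
    (fun i => (hc i).trans (by norm_num))
  refine flst_mono (by linarith) h1 ?_
  rw [Real.rpow_zero, mul_one]
  apply mul_le_mul_of_nonneg_left _ (by linarith)
  rw [← Real.rpow_natCast]
  apply Real.rpow_le_rpow_of_exponent_le hR
  norm_num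
  linarith

theorem pj_succ (hFLB : T_FLB) {D₀ D ε : ℝ} (hD₀ : D₀ ≤ D) (hD : 1 ≤ D) (hε : 0 < ε)
    (hS : ∀ (D ε : ℝ), D₀ ≤ D → 0 < ε →
      ∃ C E₁ : ℝ, 1 ≤ C ∧ 0 ≤ E₁ ∧ ∀ (K κ κ' s B : ℝ) (c : Fin 4 → E 2), 1 ≤ K → 0 ≤ κ →
      0 < κ' → κ + κ' ≤ 1 / 4 → C * K ≤ s * κ' → 0 ≤ B → (∀ i, ‖c i‖ ≤ 7 / 5) → Ind K⁻¹ c →
      FLst D (κ + κ') (1 / (200 * K)) s B c →
      FLst D κ (1 / (200 * K)) (s ^ 2) (C * K ^ E₁ * s ^ ε * B) c)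
    (J : ℕ) (hJ : PJ D ε J) : PJ D ε (J + 1) := by
  obtain ⟨C₁, E₁, hC₁, hE₁, h1⟩ := hS D ε hD₀ hε
  obtain ⟨C₂, hC₂, h2⟩ := hFLB D hD
  obtain ⟨C₃, E₃, hC₃, hE₃, h3⟩ := hJ
  have hk : (0 : ℝ) < (1 / 2) ^ (J + 1) / 4 := by positivity
  have hk1 : ((1 : ℝ) / 2) ^ (J + 1) / 4 ≤ 1 / 4 := by
    have : ((1 : ℝ) / 2) ^ (J + 1) ≤ 1 := pow_le_one₀ (by norm_num) (by norm_num)
    linarith
  have hk2 : ((1 : ℝ) / 2) ^ (J + 1) / 4 + (1 / 2) ^ (J + 1) / 4 = (1 / 2) ^ J / 4 := by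
    rw [pow_succ]
    ring
  have hk3 : ((1 : ℝ) / 2) ^ J / 4 ≤ 1 / 4 := by
    have : ((1 : ℝ) / 2) ^ J ≤ 1 := pow_le_one₀ (by norm_num) (by norm_num)
    linarith
  set κ : ℝ := (1 / 2) ^ (J + 1) / 4 with hκ
  have hB : (0 : ℝ) ≤ C₂ * (C₁ / κ) ^ 8 := by positivity
  have hp0 : (0 : ℝ) ≤ ε + 4 * (1 / 2) ^ (J + 1) := by positivity
  refine ⟨C₁ * C₃ + C₂ * (C₁ / κ) ^ 8, E₁ + E₃ + 8, ?_, by positivity, ?_⟩
  · nlinarith
  intro K R c hK hR hc hI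
  obtain ⟨hs0, hs1⟩ := sigma_bd hK
  have hR0 : (0 : ℝ) ≤ R := by linarith
  have hK0 : (0 : ℝ) < K := by linarith
  have hR00 : (0 : ℝ) < R := by linarith
  obtain ⟨s, hs, hsR⟩ : ∃ s : ℝ, 1 ≤ s ∧ s ^ 2 = R :=
    ⟨Real.sqrt R, Real.one_le_sqrt.mpr hR, Real.sq_sqrt hR0⟩
  have hs00 : (0 : ℝ) < s := by linarith
  have hX : (1 : ℝ) ≤ R ^ (ε + 4 * (1 / 2) ^ (J + 1) : ℝ) := Real.one_le_rpow hR hp0
  rcases le_or_gt (C₁ * K) (s * κ) with hcase | hcase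
  · have h4 := h3 K s c hK hs hc hI
    rw [← hk2] at h4
    have h5 := h1 K κ κ s _ c hK hk.le hk (hk2.le.trans hk3) hcase (by positivity) hc hI h4
    rw [hsR] at h5
    refine flst_mono hR0 h5 ?_
    have e1 : s ^ ε * s ^ (ε + 4 * (1 / 2) ^ J : ℝ) = R ^ (ε + 4 * (1 / 2) ^ (J + 1) : ℝ) := by
      rw [← hsR, ← Real.rpow_natCast s 2, ← Real.rpow_mul hs00.le, ← Real.rpow_add hs00]
      congr 1
      rw [pow_succ]
      push_cast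
      ring
    have e2 : K ^ E₁ * K ^ E₃ ≤ K ^ (E₁ + E₃ + 8) := by
      rw [← Real.rpow_add hK0]
      exact Real.rpow_le_rpow_of_exponent_le hK (by linarith)
    calc C₁ * K ^ E₁ * s ^ ε * (C₃ * K ^ E₃ * s ^ (ε + 4 * (1 / 2) ^ J : ℝ))
        = C₁ * C₃ * (K ^ E₁ * K ^ E₃) * (s ^ ε * s ^ (ε + 4 * (1 / 2) ^ J : ℝ)) := by ring
      _ = C₁ * C₃ * (K ^ E₁ * K ^ E₃) * R ^ (ε + 4 * (1 / 2) ^ (J + 1) : ℝ) := by rw [e1]
      _ ≤ (C₁ * C₃ + C₂ * (C₁ / κ) ^ 8) * K ^ (E₁ + E₃ + 8) *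
          R ^ (ε + 4 * (1 / 2) ^ (J + 1) : ℝ) := by
        apply mul_le_mul_of_nonneg_right _ (by positivity)
        exact mul_le_mul (by linarith) e2 (by positivity) (by positivity)
  · have h4 := h2 κ (1 / (200 * K)) R c hk.le hk1 hs0 hs1 hR
      (fun i => (hc i).trans (by norm_num))
    refine flst_mono hR0 h4 ?_
    have e1 : R ^ 4 ≤ (C₁ / κ) ^ 8 * K ^ (8 : ℝ) := by
      have e2 : s ≤ C₁ / κ * K := by
        rw [div_mul_eq_mul_div, le_div_iff₀ hk]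
        exact hcase.le
      calc R ^ 4 = s ^ 8 := by rw [← hsR]; ring
        _ ≤ (C₁ / κ * K) ^ 8 := pow_le_pow_left₀ hs00.le e2 8
        _ = (C₁ / κ) ^ 8 * K ^ (8 : ℝ) := by
          rw [mul_pow]
          congr 1
          exact_mod_cast (Real.rpow_natCast K 8).symm
    have e3 : K ^ (8 : ℝ) ≤ K ^ (E₁ + E₃ + 8) :=
      Real.rpow_le_rpow_of_exponent_le hK (by linarith)
    have hCC : 0 ≤ C₁ * C₃ := by positivity
    calc C₂ * R ^ 4 ≤ C₂ * ((C₁ / κ) ^ 8 * K ^ (8 : ℝ)) :=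
          mul_le_mul_of_nonneg_left e1 (by linarith)
      _ = C₂ * (C₁ / κ) ^ 8 * K ^ (8 : ℝ) := by ring
      _ ≤ (C₁ * C₃ + C₂ * (C₁ / κ) ^ 8) * K ^ (E₁ + E₃ + 8) :=
          mul_le_mul (by linarith) e3 (by positivity) (by positivity)
      _ ≤ (C₁ * C₃ + C₂ * (C₁ / κ) ^ 8) * K ^ (E₁ + E₃ + 8) *
          R ^ (ε + 4 * (1 / 2) ^ (J + 1) : ℝ) :=
          le_mul_of_one_le_right (by positivity) hX

theorem pf_FLP (hFLS : T_FLS2) (hFLB : T_FLB) : T_FLP2 := by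
  intro ε D hε hD
  obtain ⟨D₀, hD₀, hS⟩ := hFLS
  have hall : ∀ J, PJ (max D D₀) (ε / 2) J := by
    intro J
    induction J with
    | zero => exact pj_zero hFLB (hD.trans (le_max_left _ _)) (by linarith)
    | succ J ih =>
      exact pj_succ hFLB (le_max_right _ _) (hD.trans (le_max_left _ _)) (by linarith) hS J ih
  obtain ⟨J, hJ⟩ : ∃ J : ℕ, ((1 : ℝ) / 2) ^ J < ε / 8 :=
    exists_pow_lt_of_lt_one (by linarith) (by norm_num)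
  obtain ⟨C, E₁, hC, hE₁, h⟩ := hall J
  refine ⟨C, E₁, hC, hE₁, ?_⟩
  intro K R H c G z₀ Y hK hR hH hc hI hG hs hY hz hl
  have hR0 : (0 : ℝ) < R := by linarith
  have h1 := h K R c hK hR hc hI
  have h2 : FLst (max D D₀) ((1 / 2) ^ J / 4) (1 / (200 * K)) R (C * K ^ E₁ * R ^ ε) c := by
    refine flst_mono hR0.le h1 ?_
    apply mul_le_mul_of_nonneg_left _ (by positivity)
    exact Real.rpow_le_rpow_of_exponent_le hR (by linarith)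
  refine h2 H G z₀ Y hH hG ?_ hY hz hl
  intro i ζ hζ
  obtain ⟨a1, a2, a3, a4⟩ := hs i ζ hζ
  have hk : (0 : ℝ) ≤ (1 / 2) ^ J / 4 := by positivity
  have hσ := (sigma_bd hK).1
  refine ⟨by linarith, by linarith, ?_, a4.trans ?_⟩
  · refine a3.trans ?_
    exact le_mul_of_one_le_left hσ.le (by linarith)
  · exact div_le_div_of_nonneg_right (le_max_left _ _) hR0.le

end Pool.Agent.H99.FP
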